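import Pool.Agent.X125.BT.F

/-!
# Products of `n` Beurling transforms of different constant conformal structures

For `|c| < 1` the multiplier `T_c` with symbol `conj (ξ + c conj ξ) / (ξ + c conj ξ)` is the Beurling
transform after a linear change of variables. With `w = - conj c` and `z = conj ξ / ξ` its symbol is
the Moebius map `b_w z = (z - w) / (1 - conj w z)`. A product of `n` of them is a Blaschke product
`B` of `z`.

Proof outline (files `Pool/Agent/X125/BT/*`).

1. `D.lean`: the Hankel matrix `B_(j + k + 1)` of the Taylor coefficients of `B` is a sum of `n`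
   products `U_i j * V_i k` of vectors of norm at most one in `ℓ²`.
2. `B.lean`, `C.lean`: averages of the maps `b_w` over the disc; `E.lean`: the density
   `(3 / π) ∑ (w U_i)' (w V_i)' (1 - |w|²)` has mass at most `3 n` and the average is `B - B 0`.
3. `A.lean`: by the starting result `NormOneSharp` every `b_w` gives an operator of norm at most
   `p - 1`; `F.lean`: truncation and the limit.
-/

set_option autoImplicit false

open MeasureTheory

namespace Pool.Agent.Results.MP_3dd6d4_an.BeurlingProducts

/-- the product of the Beurling transforms of the constant conformal structures `c i`: the Fourier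
multiplier with symbol `∏ i, conj (ξ + c i conj ξ) / (ξ + c i conj ξ)`; for `c = 0` it is the `n`-th
power of the Beurling transform -/
noncomputable def beurlingProduct {n : ℕ} (c : Fin n → ℂ) (f : SchwartzMap ℂ ℂ) (z : ℂ) : ℂ :=
  ∫ ξ : ℂ,
    Complex.exp (2 * (Real.pi : ℂ) * Complex.I * (((z.re * ξ.re + z.im * ξ.im : ℝ)) : ℂ)) *
      ((∏ i, starRingEnd ℂ (ξ + c i * starRingEnd ℂ ξ) / (ξ + c i * starRingEnd ℂ ξ)) *
        ∫ x : ℂ, Complex.exp (-(2 * (Real.pi : ℂ) * Complex.I *
          (((x.re * ξ.re + x.im * ξ.im : ℝ)) : ℂ))) * f x)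

open Pool.Agent.X125.BT Pool.Agent.TH55.PowA in
/-- **Products of Beurling transforms.** For every real `p ≥ 2` and all `c_1, …, c_n` in the unit
disc the product of the Beurling transforms of the constant conformal structures `c_1, …, c_n` has
norm at most `|c_1 ⋯ c_n| + 3 n (p - 1)` on `L^p`: linear in `n` and in `p - 1`, uniformly in the
structures. -/
theorem result (p : ℝ) (hp : 2 ≤ p) (n : ℕ) (c : Fin n → ℂ) (hc : ∀ i, ‖c i‖ < 1)
    (f : SchwartzMap ℂ ℂ) :
    eLpNorm (beurlingProduct c f) (ENNReal.ofReal p) volume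
      ≤ ENNReal.ofReal ((∏ i, ‖c i‖) + 3 * n * (p - 1)) *
        eLpNorm f (ENNReal.ofReal p) volume := by
  set l : List ℂ := List.ofFn fun i => -(starRingEnd ℂ) (c i) with hl
  have hlw : ∀ w ∈ l, ‖w‖ < 1 := by
    intro w hw
    rw [hl, List.mem_ofFn] at hw
    obtain ⟨i, hi⟩ := hw
    rw [← hi, norm_neg, RCLike.norm_conj]
    exact hc i
  have h := blaschke_bound hp l hlw f
  have h1 : l.length = n := by rw [hl, List.length_ofFn]
  have h2 : ‖(l.map fun w => -w).prod‖ = ∏ i, ‖c i‖ := by
    rw [hl, List.map_ofFn, List.prod_ofFn, norm_prod]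
    refine Finset.prod_congr rfl fun i _ => ?_
    simp
  have h3 : beurlingProduct c f = T (fun ξ => (l.map fun w => mb w (bs ξ)).prod) f := by
    funext z
    have h4 : beurlingProduct c f z = T (fun ξ => ∏ i,
        starRingEnd ℂ (ξ + c i * starRingEnd ℂ ξ) / (ξ + c i * starRingEnd ℂ ξ)) f z := rfl
    rw [h4]
    refine T_congr (fun ξ hξ => ?_) f z
    rw [hl, List.map_ofFn, List.prod_ofFn]
    refine Finset.prod_congr rfl fun i _ => ?_
    have h5 : ‖-(starRingEnd ℂ) (c i)‖ < 1 := by rw [norm_neg, RCLike.norm_conj]; exact hc i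
    have h6 : ‖-(starRingEnd ℂ) (-(starRingEnd ℂ) (c i))‖ < 1 := by
      rw [norm_neg, RCLike.norm_conj]; exact h5
    have h7 := mb_eq h5 hξ h6
    simp only [Function.comp]
    rw [h7]
    unfold bs
    rw [Ae_apply]
    simp
  rw [h3]
  rw [h1, h2] at h
  exact h

end Pool.Agent.Results.MP_3dd6d4_an.BeurlingProducts
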