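import Pool.Agent.H93W.W9

/-!
# Sums of many angular modes `≤ n` for the powers of the Beurling operator

The inequality of the question for functions with many angular modes: the functions whose angular
spectrum lies in a window `[n - J, n]` with `(J + 1) (1 + √(log (1 + 2 n))) ≤ 7.389 n`.
-/

set_option autoImplicit false

open MeasureTheory

namespace Pool.Agent.Results.MP_3dd6d4_an.ModeWindows

/-- The `n`-th power of the Beurling transform: the Fourier multiplier with symbol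
`(conj ξ / ξ) ^ n`, in the literal form of the frozen statement. -/
noncomputable def T (n : ℕ) (f : ℂ → ℂ) (z : ℂ) : ℂ :=
  ∫ ξ : ℂ,
    Complex.exp (2 * (Real.pi : ℂ) * Complex.I * (((z.re * ξ.re + z.im * ξ.im : ℝ)) : ℂ)) *
      ((starRingEnd ℂ ξ / ξ) ^ n *
        ∫ x : ℂ, Complex.exp (-(2 * (Real.pi : ℂ) * Complex.I *
          (((x.re * ξ.re + x.im * ξ.im : ℝ)) : ℂ))) * f x)

/-- Angular mode `k`: `f (r e^{iθ}) = e^{ikθ} φ(r)`. -/
def Mode (k : ℤ) (f : ℂ → ℂ) : Prop := ∀ a z : ℂ, ‖a‖ = 1 → f (a * z) = a ^ k * f z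

/-- The constant `√|S| + √(log (1 + n + J) · ∑_{j ∈ S} 2 n j / (n + j))`. -/
noncomputable def B (n J : ℕ) (S : Finset ℕ) : ℝ :=
  Real.sqrt S.card +
    Real.sqrt ((∑ j ∈ S, 2 * (n : ℝ) * j / ((n : ℝ) + j)) * Real.log (1 + n + J))

/-- **Sums of angular modes.** Let `n ≥ 1`, `p ≥ 2`, let `S` be a finite set of integers in `[0, J]`
and let `f = ∑_{j ∈ S} g j` be a sum of Schwartz functions `g j` of angular mode `n - j`. Then
`‖T^n f‖_p ≤ B^(1 - 2/p) ‖f‖_p` with the constant `B = B n J S` above, and if `B ≤ 7.389 n` then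
`‖T^n f‖_p ≤ n^(1 - 2/p) (p - 1) ‖f‖_p`, the inequality of the question. The condition holds for all
`S ⊆ [0, J]` if `J ≤ n` and `(J + 1) (1 + √(log (1 + 2 n))) ≤ 7.389 n`, and it holds for all
`S ⊆ [0, n]` if `n ≤ 10 ^ 17`. -/
theorem result (n J : ℕ) (p : ℝ) (hn : 1 ≤ n) (hp : 2 ≤ p) (S : Finset ℕ) (hS : ∀ j ∈ S, j ≤ J)
    (g : ℕ → SchwartzMap ℂ ℂ) (hg : ∀ j ∈ S, Mode ((n : ℤ) - j) (g j)) :
    eLpNorm (T n (∑ j ∈ S, g j : SchwartzMap ℂ ℂ)) (ENNReal.ofReal p) (volume : Measure ℂ) ≤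
      ENNReal.ofReal (B n J S ^ (1 - 2 / p)) *
        eLpNorm (∑ j ∈ S, g j : SchwartzMap ℂ ℂ) (ENNReal.ofReal p) (volume : Measure ℂ) ∧
    (B n J S ≤ 7.389 * n →
      eLpNorm (T n (∑ j ∈ S, g j : SchwartzMap ℂ ℂ)) (ENNReal.ofReal p) (volume : Measure ℂ) ≤
        ENNReal.ofReal ((n : ℝ) ^ (1 - 2 / p) * (p - 1)) *
          eLpNorm (∑ j ∈ S, g j : SchwartzMap ℂ ℂ) (ENNReal.ofReal p) (volume : Measure ℂ)) ∧
    (J ≤ n → (J + 1) * (1 + Real.sqrt (Real.log (1 + 2 * n))) ≤ 7.389 * n ∨ n ≤ 10 ^ 17 →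
      B n J S ≤ 7.389 * n) := by
  have hT : ∀ f, T n f = Y282.RB.Tn n f := fun f => rfl
  have hBe : B n J S = Real.sqrt S.card + Real.sqrt (H93W.W1.AT n S * Real.log (1 + n + J)) := rfl
  have hB0 : 0 ≤ B n J S := by
    unfold B
    positivity
  have h1 : eLpNorm (T n (∑ j ∈ S, g j : SchwartzMap ℂ ℂ)) (ENNReal.ofReal p)
      (volume : Measure ℂ) ≤ ENNReal.ofReal (B n J S ^ (1 - 2 / p)) *
        eLpNorm (∑ j ∈ S, g j : SchwartzMap ℂ ℂ) (ENNReal.ofReal p) (volume : Measure ℂ) := by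
    rw [hT]
    rcases eq_or_lt_of_le hp with h2 | h2
    · subst h2
      have e1 : (1 : ℝ) - 2 / 2 = 0 := by norm_num
      have e2 : ENNReal.ofReal 2 = 2 := by simp
      rw [e1, Real.rpow_zero, ENNReal.ofReal_one, one_mul, e2,
        eLpNorm_eq_lintegral_rpow_enorm_toReal (by norm_num) (by norm_num),
        eLpNorm_eq_lintegral_rpow_enorm_toReal (by norm_num) (by norm_num)]
      have e3 := Pool.Agent.Y338.BP.T_two (∑ j ∈ S, g j : SchwartzMap ℂ ℂ) n
      have e4 : ∀ x : ENNReal, x ^ (ENNReal.toReal 2) = x ^ 2 := fun x => by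
        rw [← ENNReal.rpow_natCast]; norm_num
      simp_rw [e4]
      rw [Y282.RB.K.Tn_eq, e3]
    · rw [hBe]
      exact H93W.W8.schwartz hn hS (g := g) (fun j hj => hg j hj) h2
  refine ⟨h1, fun h => h1.trans ?_, fun h2 h3 => ?_⟩
  · have h4 := H93W.W9.const_le hp hB0 h
    gcongr
  · rw [hBe]
    refine (H93W.W9.window h2 hS).trans ?_
    rcases h3 with h3 | h3
    · exact h3
    · refine le_trans ?_ (H93W.W9.full hn h3)
      have : (J : ℝ) ≤ n := by exact_mod_cast h2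
      gcongr

end Pool.Agent.Results.MP_3dd6d4_an.ModeWindows
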