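import Pool.Agent.X91.BW.All

/-!
# The bound `n ^ (1 - 2/p) (p - 1)` for the powers of the Beurling operator on every angular mode
except `2 n`

For all `n ≥ 1` and `p ≥ 2` the inequality of the question holds, with a smaller constant, for the
Schwartz functions `f (r e^{iθ}) = e^{ikθ} φ(r)` of every single angular mode `k ≠ 2 n`.
-/

set_option autoImplicit false

open MeasureTheory

namespace Pool.Agent.Results.MP_3dd6d4_an.OtherModes

/-- The `n`-th power of the Beurling transform: the Fourier multiplier with symbol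
`(conj ξ / ξ) ^ n`, in the literal form of the frozen statement. -/
noncomputable def T (n : ℕ) (f : ℂ → ℂ) (z : ℂ) : ℂ :=
  ∫ ξ : ℂ,
    Complex.exp (2 * (Real.pi : ℂ) * Complex.I * (((z.re * ξ.re + z.im * ξ.im : ℝ)) : ℂ)) *
      ((starRingEnd ℂ ξ / ξ) ^ n *
        ∫ x : ℂ, Complex.exp (-(2 * (Real.pi : ℂ) * Complex.I *
          (((x.re * ξ.re + x.im * ξ.im : ℝ)) : ℂ))) * f x)

/-- The constant `exp (2 (1 + 1/3 + 1/5 + … + 1/(2n-1)))`, which is at most `e² n`. -/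
noncomputable def B (n : ℕ) : ℝ :=
  Real.exp (2 * ∑ j ∈ Finset.range n, 1 / (2 * (j : ℝ) + 1))

/-- **All angular modes except `2 n`.** Let `n ≥ 1`, `p ≥ 2` and let `k ≠ 2 n` be an integer. For
every Schwartz function `f` with `f (a z) = a ^ k f z` for `|a| = 1` (that is,
`f (r e^{iθ}) = e^{ikθ} φ(r)`), `‖T^n f‖_p ≤ B_n ^ (1 - 2/p) ‖f‖_p`; moreover
`B_n ^ (1 - 2/p) ≤ n ^ (1 - 2/p) (p - 1)`, with strict inequality for `p > 2`. -/
theorem result (n : ℕ) (hn : 1 ≤ n) (p : ℝ) (hp : 2 ≤ p) :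
    B n ^ (1 - 2 / p) ≤ (n : ℝ) ^ (1 - 2 / p) * (p - 1) ∧
    (2 < p → B n ^ (1 - 2 / p) < (n : ℝ) ^ (1 - 2 / p) * (p - 1)) ∧
    ∀ k : ℤ, k ≠ 2 * (n : ℤ) → ∀ f : SchwartzMap ℂ ℂ,
      (∀ a z : ℂ, ‖a‖ = 1 → f (a * z) = a ^ k * f z) →
      eLpNorm (T n f) (ENNReal.ofReal p) (volume : Measure ℂ)
        ≤ ENNReal.ofReal (B n ^ (1 - 2 / p)) * eLpNorm f (ENNReal.ofReal p) (volume : Measure ℂ) ∧
      eLpNorm (T n f) (ENNReal.ofReal p) (volume : Measure ℂ)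
        ≤ ENNReal.ofReal ((n : ℝ) ^ (1 - 2 / p) * (p - 1))
          * eLpNorm f (ENNReal.ofReal p) (volume : Measure ℂ) := by
  have h1 : B n ^ (1 - 2 / p) ≤ (n : ℝ) ^ (1 - 2 / p) * (p - 1) :=
    (Pool.Agent.X91.BW.KK_ge n hp).trans (Pool.Agent.X91.BW.KK_le n hn hp)
  refine ⟨h1, fun h2 => (Pool.Agent.X91.BW.KK_gt n hn h2).trans_le
    (Pool.Agent.X91.BW.KK_le n hn hp), fun k hk f hf => ?_⟩
  have h3 : eLpNorm (T n f) (ENNReal.ofReal p) (volume : Measure ℂ)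
      ≤ ENNReal.ofReal (B n ^ (1 - 2 / p)) * eLpNorm f (ENNReal.ofReal p) (volume : Measure ℂ) :=
    Pool.Agent.X91.BW.all_modes n hn k hk hp f hf
  exact ⟨h3, h3.trans (mul_le_mul_left (ENNReal.ofReal_le_ofReal h1) _)⟩

end Pool.Agent.Results.MP_3dd6d4_an.OtherModes
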